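import Pool.Agent.Helper13.WD.Conv

/-!
# The 51 percent Tate conjecture over a finite field implies the Tate conjecture and D

Let `k` be a finite field with `q` elements, `W` a Weil cohomology theory `H` for the smooth
projective varieties over `k`, with coefficients in a field `K` of characteristic zero. For a variety
`X` let `a(X) = cycRank W X` be the dimension of the `K`-span of the classes of algebraic cycles in
`H X`, and `tateRank W X` the dimension of the span `T(X)` of the Tate classes, i.e. of the classes in
the `H^{2 j}(X)` which are annihilated by a power of `F - q ^ j`. `power X m` is `X ^ (m + 1)`.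

(1) If, for some `ε > 0`, for all `X` at least the proportion `1 / 2 + ε` of the Tate classes is
algebraic, `a(X) ≥ (1 / 2 + ε) dim T(X)`, then for all `X` all Tate classes are algebraic, D holds
for `X`, and Frobenius is semisimple on `H X`.

(2) One power is enough: for every `b` there are constants `C` and `t > 0` such that, for all finite
fields, all Weil cohomology theories and all `X` with `dim H X ≤ b`, the inequality
`a(X ^ m) > (1 / 2 + C / (m + 1) ^ t) dim T(X ^ m)` for one `m ≥ 1` implies that D holds for `X` and
all Tate classes on `X` are algebraic.
-/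

universe u v w

open Pool.Agent.Helper10 Pool.Agent.Helper13.WD

namespace Pool.Agent.Results.MP_5f0950_ag.FiftyOnePercentTate

theorem result :
    -- (1) all varieties over `k`
    (∀ (k : Type u) [Field k] [Finite k] (K : Type v) [Field K] [CharZero K]
      (H : SmProjVar k → Type w) [∀ X, Ring (H X)] [∀ X, Algebra K (H X)]
      (W : Cohomology k K H), IsWeil W → ∀ ε : ℝ, 0 < ε →
        (∀ X, (1 / 2 + ε) * tateRank W X ≤ cycRank W X) →
          ∀ X, TateConjecture W X ∧ StandardD W X ∧ IsFrobeniusSemisimple W X) ∧
    -- (2) one power is enough
    (∀ b : ℕ, ∃ C t : ℝ, 0 < t ∧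
      ∀ (k : Type u) [Field k] [Finite k] (K : Type v) [Field K] [CharZero K]
        (H : SmProjVar k → Type w) [∀ X, Ring (H X)] [∀ X, Algebra K (H X)]
        (W : Cohomology k K H), IsWeil W → ∀ X : SmProjVar k, totalDim W X ≤ b →
          ∀ m : ℕ, (1 / 2 + C / ((m : ℝ) + 2) ^ t) * tateRank W (power X m) <
            cycRank W (power X m) → TateConjecture W X ∧ StandardD W X) :=
  fiftyOne

end Pool.Agent.Results.MP_5f0950_ag.FiftyOnePercentTate
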