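import Mathlib
import Pool.Agent.Helper34.CR.Main

/-!
# Standard conjecture D: from the special fibre to the generic fibre

Let `H` and `H'` be Weil cohomology theories over fields `k` and `k'`, with the same field of
coefficients `K` of characteristic zero, and let the variety `X` over `k` specialise to the variety
`X'` over `k'`; for `ℓ`-adic cohomology this is the case if `X` has good reduction `X'` at some place.
So `k'` may be a finite field if `k` is finitely generated over its prime field of characteristic
`p`. Let `d` be a divisor on `X` for which the hard Lefschetz theorem holds.

We assume that the standard conjecture D holds for all powers of `X'`, and that the standard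
conjecture of Hodge type holds for the single variety `X' × X'` (and the divisor on it given by the
specialisation of `d`), not for its powers, as it does for curves and K3 surfaces.

Then D holds for all powers of `X` if and only if the Lefschetz standard conjecture `B(X)` holds.

On the proof. If D does not hold, there are totally isotropic subspaces `G` of the even and odd parts
of `H(X)`, stable under all correspondences, and a nonzero rational class `z` of an algebraic cycle
on a power of `X` which lies in a product of powers of their determinants. By D over `k'` its
specialisation `z'` is not orthogonal to some cycle `a'`, although `z` is numerically trivial. The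
contraction of `z'` and `a'` in all slots but the last is the class of a nonzero cycle on `X' × X'`
which lies in `φ(G) ⊗ H'(X')`. This contradicts the Hodge type positivity, since `G` is isotropic and
stable under the operators of the Lefschetz decomposition, which are algebraic over `k` by `B(X)`.
-/

universe u v w u' w'

open Pool.Agent.Helper10 Pool.Agent.Helper11 Pool.Agent.Helper11.Obs Pool.Agent.Helper11.BD

theorem Pool.Agent.Results.MP_5f0950_ag.SpecialFibre.result
    {k : Type u} [Field k] {K : Type v} [Field K] [CharZero K] (W : WeilCohomology.{u, v, w} k K)
    {k' : Type u'} [Field k'] (W' : WeilCohomology.{u', v, w'} k' K) (F : Subfield K)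
    -- `X` specialises to `X'`
    {X : SmProjVar k} {X' : SmProjVar k'} {φ : W.H X → W'.H X'}
    (_ : AreSpecializations W.toCohomologyData W'.toCohomologyData (fun _ : Fin 1 => X)
      (fun _ => X') fun _ => φ)
    -- D for the powers of `X'`
    (_ : ∀ m, W'.StandardD (X'.selfProd m))
    -- hard Lefschetz for `X`, and Hodge type for `X' × X'`
    {d : X.Z 1} (_ : IsPolarizedAt W.toCohomologyData W'.toCohomologyData d φ) :
    (∀ m, W.StandardD (X.selfProd m)) ↔ LefschetzStandard W.toCohomologyData F X d := by
  rename_i h1 h2 h3
  exact Pool.Agent.Helper34.CR.specialFibre W W' F h1 h2 h3
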