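import Mathlib
import Pool.Agent.Helper59.TQS.Main

/-!
# A quantization law for Tate classes and the standard conjecture D

Let `W` be a Weil cohomology theory `H` over a field `k`, with coefficients in a field `K` of
characteristic zero, and `X` a smooth projective variety over `k`. For a variety `Y` let
`A(Y) = algClasses Y` be the `K`-span of the classes of algebraic cycles in `H(Y)`, and
`n(Y) = numCycRank Y` its dimension modulo numerical equivalence, i.e. modulo the classes orthogonal
to `A(Y)`. `X.selfProd m` is the power `X ^ (m + 1)`.

(1) Let `k` be finite, and `T(Y) = tateClasses Y` the space of Tate classes. The proportion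
`n(X ^ m) / dim T(X ^ m)` of the Tate classes which are algebraic, counted modulo numerical
equivalence, converges. The limit `L` is `0` or `1 / d`, where `d` is a positive integer. If `L ≠ 0`,
then D holds for all powers of `X`, and Frobenius acts semisimply on their cohomology. `L = 1` if and
only if `T(X ^ m) = A(X ^ m)` for all `m`.

(2) The same holds for every field `k` and every system `V` of classes on the powers of `X`, i.e.
subspaces `V(X ^ m)` of `H(X ^ m)` which contain `A(X ^ m)`, such that algebraic correspondences map
them into each other (for instance the spaces of Hodge classes, or of motivated classes): the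
proportion `n(X ^ m) / dim V(X ^ m)` converges, the limit `L` is `0` or `1 / d`, D holds for all powers
of `X` if `L ≠ 0`, and `L = 1` if and only if D holds and `V(X ^ m) = A(X ^ m)` for all powers of `X`.
-/

universe u v w

open Filter Topology Pool.Agent.Helper10 SmProjVar Pool.Agent.Helper59.TQS

theorem Pool.Agent.Results.MP_5f0950_ag.TateQuantization.result
    {k : Type u} [Field k] {K : Type v} [Field K] [CharZero K] (W : WeilCohomology.{u, v, w} k K)
    (X : SmProjVar k) :
    -- (1) Tate classes over a finite field
    (Finite k → ∃ L : ℝ,
      Tendsto (proportion W.toCohomologyData X fun m => tateClasses W.toCohomologyData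
        (X.selfProd m)) atTop (𝓝 L) ∧
      (L = 0 ∨ ∃ d : ℕ, 1 ≤ d ∧ L = 1 / d) ∧
      (L ≠ 0 → ∀ m, W.StandardD (X.selfProd m) ∧
        IsFrobeniusSemisimple W.toCohomologyData (X.selfProd m)) ∧
      (L = 1 ↔ ∀ m, tateClasses W.toCohomologyData (X.selfProd m) =
        W.algClasses (X.selfProd m))) ∧
    -- (2) every field and every system of classes
    ∀ V : ∀ m : ℕ, Submodule K (W.H (X.selfProd m)), IsSystem W.toCohomologyData X V → ∃ L : ℝ,
      Tendsto (proportion W.toCohomologyData X V) atTop (𝓝 L) ∧
      (L = 0 ∨ ∃ d : ℕ, 1 ≤ d ∧ L = 1 / d) ∧
      (L ≠ 0 → ∀ m, W.StandardD (X.selfProd m)) ∧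
      (L = 1 ↔ ∀ m, W.StandardD (X.selfProd m) ∧ V m = W.algClasses (X.selfProd m)) :=
  ⟨fun _ => tate W X, system W X⟩
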