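import Pool.Agent.Helper13.WD.ConvZ

/-!
# A zero-one law for the standard conjecture D

Let `W` be a Weil cohomology theory `H` over a field `k`, with coefficients in a field `K` of
characteristic zero. For a smooth projective variety `X` over `k` let `a(X) = cycRank W X` be the
dimension of the `K`-span of the classes of algebraic cycles in `H X`, and `n(X) = numCycRank W X` the
dimension of this space modulo numerical equivalence, i.e. modulo the classes orthogonal to all
classes of algebraic cycles. So `n(X) ≤ a(X)`, with equality if and only if D holds for `X`.

(1) D holds for all varieties over `k` if and only if for some `ε > 0` the inequality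
`n(X) ≥ ε a(X)` holds for all varieties `X` over `k`. So the conjecture is equivalent to its one
percent version.

(2) One power is enough: for all `b` and `r` there are constants `C` and `t > 0` such that, for all
fields, all Weil cohomology theories and all `X` with `dim H X ≤ b`, the inequality
`n(X ^ m) (m + 1) ^ t > C a(X ^ m)` for one `m ≥ 1` implies D for `X ^ (r + 1)`. So if D fails for
`X ^ (r + 1)`, then `n(X ^ m) / a(X ^ m) ≤ C / (m + 1) ^ t` for all `m`. Here `power X n` is the
power `X ^ (n + 1)`.

On the proof. The numerical correspondences `A / N` form semisimple algebras, since nilpotent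
correspondences have trace zero. So `dim (p C q) ^ 2 ≤ dim (p C p) dim (q C q)` for idempotents. With
tensor powers this inequality gives `dim C(Z, Y × Y) e ≤ rank(e) n(Y × Y)` for algebraic projectors
`e` on `Z`; the difference is the defect of `e` with respect to `Y`. Let `b = dim H(X)`. The
permutations of the factors give `a(X ^ (2 l)) ≥ b ^ (2 l) / (l + 1) ^ (b ^ 2)`. So if `n / a` is not
small, `n` grows like `b ^ m` from `m` to `m + s`, for the `s` up to a multiple of `log m`, and the
projectors on these powers have small defects. The defect is monotone for direct summands, and the
inequality for idempotents, in the form of a Gram matrix, bounds the defect of `e ⊗ f` by those of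
`e` and `f`, and the defect of `e` by those of `e ⊗ f` and `f`. Let `S_k` be the projector to the
invariants of the permutations in `H(Z ^ k)`, where `Z` is a power of `X`. `S_(L + j) ⊗ S_(L - j)` is
a direct summand of `S_L ⊗ S_L`. So the defect of `S_k`, `k ≤ 3 L / 2`, is bounded by those of the
`S_i`, `i ≤ L`, and by induction it is small for all `k` up to a power of `m`. A numerically trivial
class `z ≠ 0` on `Z` gives the decreasing spaces of the classes on `X ^ m` which are images of
`z × ⋯ × z` (`k` times) under correspondences; as the defect of `S_k` is small, there are no
non-nilpotent numerically trivial correspondences on its image, and each layer has dimension about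
`n(X ^ m)`. So `a(X ^ m)` is at least about a power of `m` times `n(X ^ m)`.
-/

universe u v w

open Pool.Agent.Helper10 Pool.Agent.Helper13.WD

namespace Pool.Agent.Results.MP_5f0950_ag.ZeroOneLaw

theorem result :
    -- (1) D is equivalent to its one percent version
    (∀ (k : Type u) [Field k] (K : Type v) [Field K] [CharZero K]
      (H : SmProjVar k → Type w) [∀ X, Ring (H X)] [∀ X, Algebra K (H X)]
      (W : Cohomology k K H), IsWeil W →
        ((∀ X, StandardD W X) ↔ ∃ ε : ℝ, 0 < ε ∧ ∀ X, ε * cycRank W X ≤ numCycRank W X)) ∧
    -- (2) one power is enough
    ∀ b r : ℕ, ∃ C t : ℝ, 0 < C ∧ 0 < t ∧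
      ∀ (k : Type u) [Field k] (K : Type v) [Field K] [CharZero K]
        (H : SmProjVar k → Type w) [∀ X, Ring (H X)] [∀ X, Algebra K (H X)]
        (W : Cohomology k K H), IsWeil W → ∀ X : SmProjVar k, totalDim W X ≤ b →
          ∀ n : ℕ, C * cycRank W (power X n) < numCycRank W (power X n) * ((n : ℝ) + 2) ^ t →
            StandardD W (power X r) :=
  zeroOne

end Pool.Agent.Results.MP_5f0950_ag.ZeroOneLaw
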